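import Pool.Agent.H211.HY.Stm5
import Pool.Agent.H274.HY211.TG2

/-!
# Targets everywhere, with a bound for the time (helper277, for helper211)
-/

set_option autoImplicit false

open Topology Filter Metric Set

namespace Pool.Agent.H277.HY211

open Pool.Agent.H790R3.RB Pool.Agent.H211.HY
open Pool.Agent.H274.HY211 (ift near IsT_mono)

theorem t_TG2B : S_TG2B := by
  intro d k x₀ c₀ m X c ρ hd hN hD hi hf hX ε hε
  -- for one chart
  have one : ∀ τ : Bool, ∃ ρ₁ > (0 : ℝ), ρ₁ ≤ ρ ∧ ∃ (L : ℝ) (M : ℕ), ∀ z ∈ closedBall (0 : ℂ) 1,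
      ∃ q : (Fin k → ℂ) → ℂ, IsT q ρ₁ L ∧ ‖q 0 - z‖ ≤ ε ∧
        ∃ n ≤ M, ∃ j : Fin k, ∀ s ∈ ball (0 : Fin k → ℂ) ρ₁,
          cr ((hF (X s))^[n] (iot τ (q s))) (c j s, 1) = 0 := by
    intro τ
    refine (isCompact_closedBall (0 : ℂ) 1).induction_on
      (p := fun K => ∃ ρ₁ > (0 : ℝ), ρ₁ ≤ ρ ∧ ∃ (L : ℝ) (M : ℕ), ∀ z ∈ K,
        ∃ q : (Fin k → ℂ) → ℂ, IsT q ρ₁ L ∧ ‖q 0 - z‖ ≤ ε ∧
          ∃ n ≤ M, ∃ j : Fin k, ∀ s ∈ ball (0 : Fin k → ℂ) ρ₁,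
            cr ((hF (X s))^[n] (iot τ (q s))) (c j s, 1) = 0) ?_ ?_ ?_ ?_
    · exact ⟨ρ, hX.ρ0, le_rfl, 0, 0, fun z hz => absurd hz (notMem_empty z)⟩
    · rintro s t hst ⟨ρ₁, h1, h2, L, M, h3⟩
      exact ⟨ρ₁, h1, h2, L, M, fun z hz => h3 z (hst hz)⟩
    · rintro s t ⟨ρ₁, h1, h2, L, M, h3⟩ ⟨ρ₂, g1, g2, L₂, M₂, g3⟩
      refine ⟨min ρ₁ ρ₂, lt_min h1 g1, (min_le_left _ _).trans h2, max L L₂, max M M₂,
        fun z hz => ?_⟩
      rcases hz with hz | hz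
      · obtain ⟨q, hq, hqz, n, hn, j, hs⟩ := h3 z hz
        exact ⟨q, IsT_mono hq (min_le_left _ _) (le_max_left _ _), hqz, n,
          hn.trans (le_max_left _ _), j, fun a ha => hs a (ball_subset_ball (min_le_left _ _) ha)⟩
      · obtain ⟨q, hq, hqz, n, hn, j, hs⟩ := g3 z hz
        exact ⟨q, IsT_mono hq (min_le_right _ _) (le_max_right _ _), hqz, n,
          hn.trans (le_max_right _ _), j,
          fun a ha => hs a (ball_subset_ball (min_le_right _ _) ha)⟩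
    · intro z hz
      have hz1 : ‖z‖ ≤ 1 := by simpa using hz
      obtain ⟨z', hzz, n, j, hw, hc⟩ := near hN hD hi hf τ hz1 (half_pos hε)
      obtain ⟨q, r, hr, hrρ, L, hq, hq0, hs⟩ := ift hN hX τ z' n j hw hc
      refine ⟨ball z (ε / 2), mem_nhdsWithin_of_mem_nhds (ball_mem_nhds z (half_pos hε)),
        r, hr, hrρ, L, n, fun a ha => ⟨q, hq, ?_, n, le_rfl, j, hs⟩⟩
      rw [hq0]
      rw [mem_ball, dist_eq_norm] at ha
      calc ‖z' - a‖ = ‖(z' - z) - (a - z)‖ := by congr 1; ring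
        _ ≤ ‖z' - z‖ + ‖a - z‖ := norm_sub_le _ _
        _ ≤ ε := by linarith
  obtain ⟨ρ₁, h1, h2, L, M, h3⟩ := one true
  obtain ⟨ρ₂, g1, g2, L₂, M₂, g3⟩ := one false
  refine ⟨min ρ₁ ρ₂, lt_min h1 g1, (min_le_left _ _).trans h2, max L L₂, max M M₂,
    fun τ z hz => ?_⟩
  have hz' : z ∈ closedBall (0 : ℂ) 1 := by simpa using hz
  cases τ with
  | true =>
    obtain ⟨q, hq, hqz, n, hn, j, hs⟩ := h3 z hz'
    exact ⟨q, IsT_mono hq (min_le_left _ _) (le_max_left _ _), hqz, n,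
      hn.trans (le_max_left _ _), j, fun a ha => hs a (ball_subset_ball (min_le_left _ _) ha)⟩
  | false =>
    obtain ⟨q, hq, hqz, n, hn, j, hs⟩ := g3 z hz'
    exact ⟨q, IsT_mono hq (min_le_right _ _) (le_max_right _ _), hqz, n,
      hn.trans (le_max_right _ _), j,
      fun a ha => hs a (ball_subset_ball (min_le_right _ _) ha)⟩

end Pool.Agent.H277.HY211
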